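import Pool.Agent.H721.Q3.Word
import Pool.Agent.H721.Q3.Good2

namespace Pool.Agent.Results.MP_a80717_al.ExponentSums

open Matrix Pool.Agent.H721.Q3

/-- `g` preserves the Euclidean distance of `ℚ³` (squared distances are compared) -/
def IsIsom (g : Equiv.Perm (Fin 3 → ℚ)) : Prop :=
  ∀ x y : Fin 3 → ℚ, ∑ i, (g x i - g y i) ^ 2 = ∑ i, (x i - y i) ^ 2

/-- the exponent sum of the generator `i` in the element `w` of the free group of rank two -/
def expSum (i : Fin 2) (w : FreeGroup (Fin 2)) : ℤ :=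
  Multiplicative.toAdd (FreeGroup.lift (fun j : Fin 2 => Multiplicative.ofAdd (if j = i then (1 : ℤ) else 0)) w)

theorem expSum_one (i : Fin 2) : expSum i 1 = 0 := by simp [expSum]
theorem expSum_mul (i : Fin 2) (v w : FreeGroup (Fin 2)) : expSum i (v * w) = expSum i v + expSum i w := by
  simp [expSum]
theorem expSum_inv (i : Fin 2) (v : FreeGroup (Fin 2)) : expSum i v⁻¹ = - expSum i v := by simp [expSum]
theorem expSum_of (i j : Fin 2) : expSum i (FreeGroup.of j) = if j = i then 1 else 0 := by simp [expSum]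

/-- the images of the two generators in the integral Heisenberg group (upper unitriangular matrices) -/
def heis : Fin 2 → (Matrix (Fin 3) (Fin 3) ℤ)ˣ
  | 0 => ⟨!![1, 1, 0; 0, 1, 0; 0, 0, 1], !![1, -1, 0; 0, 1, 0; 0, 0, 1], by decide, by decide⟩
  | 1 => ⟨!![1, 0, 0; 0, 1, 1; 0, 0, 1], !![1, 0, 0; 0, 1, -1; 0, 0, 1], by decide, by decide⟩

/-- the upper right entry of the image of `w` in the integral Heisenberg group; for `w` in the commutator subgroup
it is the integer `m` with `w ≡ [x₀, x₁] ^ m` modulo the third term of the lower central series -/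
def area (w : FreeGroup (Fin 2)) : ℤ := (FreeGroup.lift heis w).val 0 2

theorem heis_form (w : FreeGroup (Fin 2)) :
    (FreeGroup.lift heis w).val = !![1, expSum 0 w, area w; 0, 1, expSum 1 w; 0, 0, 1] := by
  induction w using FreeGroup.induction_on with
  | C1 => ext i j; fin_cases i <;> fin_cases j <;> simp [expSum_one, area]
  | of k =>
    fin_cases k <;> ext i j <;> fin_cases i <;> fin_cases j <;> simp [expSum_of, area, heis]
  | inv_of k _ =>
    fin_cases k <;> ext i j <;> fin_cases i <;> fin_cases j <;> simp [expSum_of, expSum_inv, area, heis]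
  | mul v w hv hw =>
    have h : (FreeGroup.lift heis (v * w)).val = (FreeGroup.lift heis v).val * (FreeGroup.lift heis w).val := by
      rw [map_mul, Units.val_mul]
    have h2 : area (v * w) = area v + area w + expSum 0 v * expSum 1 w := by
      unfold area
      rw [h]
      conv_lhs => rw [hv, hw]
      simp [Matrix.mul_apply, Fin.sum_univ_three, area]
      ring
    rw [h, h2, expSum_mul, expSum_mul]
    conv_lhs => rw [hv, hw]
    ext i j
    fin_cases i <;> fin_cases j <;> simp [Matrix.mul_apply, Fin.sum_univ_three] <;> ring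

theorem area_mul (v w : FreeGroup (Fin 2)) : area (v * w) = area v + area w + expSum 0 v * expSum 1 w := by
  have h : (FreeGroup.lift heis (v * w)).val = (FreeGroup.lift heis v).val * (FreeGroup.lift heis w).val := by
    rw [map_mul, Units.val_mul]
  have h3 := congrFun (congrFun h 0) 2
  rw [heis_form v, heis_form w] at h3
  have h4 : (FreeGroup.lift heis (v * w)).val 0 2 = area (v * w) := rfl
  rw [h4] at h3
  rw [h3]
  simp [Matrix.mul_apply, Fin.sum_univ_three]
  ring

theorem final2 {n : ℕ} {u Q p : ℤ} (hu : ¬ (3 : ℤ) ∣ u) (hQ : Q ≠ 0)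
    (h : D (4 * (2 * n + 1)) ((3 ^ (2 * n + 1) * u / Q : ℚ) ^ 3 * (2 * p) ^ 2)) : (3 : ℤ) ^ n ∣ p := by
  obtain ⟨m, d, hd, h⟩ := h
  have hQ' : (Q : ℚ) ≠ 0 := by exact_mod_cast hQ
  have h1 : (4 * u ^ 3 * d * p ^ 2 : ℚ) = 3 ^ (2 * n + 1) * m * Q ^ 3 := by
    have h3 : (3 : ℚ) ^ (2 * n + 1) ≠ 0 := by positivity
    apply mul_left_cancel₀ (pow_ne_zero 3 h3)
    rw [show (4 * (2 * n + 1)) = (2 * n + 1) * 4 by ring, pow_mul] at h
    rw [div_pow, mul_pow] at h
    have h5 : ((3 : ℚ) ^ (2 * n + 1)) ^ 3 * u ^ 3 * (2 * p) ^ 2 * d =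
        ((3 : ℚ) ^ (2 * n + 1)) ^ 4 * m * Q ^ 3 := by
      rw [← h]; field_simp
    linear_combination h5
  have h2 : (4 * u ^ 3 * d * p ^ 2 : ℤ) = 3 ^ (2 * n + 1) * m * Q ^ 3 := by exact_mod_cast h1
  have h3 : (3 : ℤ) ^ (2 * n + 1) ∣ (4 * (u * (u * u)) * d) * (p ^ 2) := ⟨m * Q ^ 3, by linear_combination h2⟩
  have h4 : IsCoprime ((3 : ℤ) ^ (2 * n + 1)) (4 * (u * (u * u)) * d) := by
    apply IsCoprime.pow_left
    rw [Prime.coprime_iff_not_dvd Int.prime_three]
    exact nd_mul (nd_mul (by norm_num) (nd_mul hu (nd_mul hu hu))) hd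
  have h5 : (3 : ℤ) ^ (2 * n) ∣ p ^ 2 + 0 ^ 2 := by
    have := (pow_dvd_pow (3 : ℤ) (by omega : 2 * n ≤ 2 * n + 1)).trans (h4.dvd_of_dvd_mul_left h3)
    simpa using this
  exact (descent n p 0 h5).1

/-- rational matrices of the four letters -/
def G (C S Q : ℤ) : Fin 2 × Bool → Mat
  | (0, true) => !![(C / Q : ℚ), -(S / Q), 0; S / Q, C / Q, 0; 0, 0, 1]
  | (0, false) => !![(C / Q : ℚ), S / Q, 0; -(S / Q), C / Q, 0; 0, 0, 1]
  | (1, true) => !![1, 0, 0; 0, (C / Q : ℚ), -(S / Q); 0, S / Q, C / Q]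
  | (1, false) => !![1, 0, 0; 0, (C / Q : ℚ), S / Q; 0, -(S / Q), C / Q]

theorem cs {C S Q : ℤ} (hQ : (Q : ℚ) ≠ 0) (h : C ^ 2 + S ^ 2 = Q ^ 2) :
    (C / Q : ℚ) * (C / Q) + (S / Q) * (S / Q) = 1 := by
  have h' : (C : ℚ) ^ 2 + (S : ℚ) ^ 2 = (Q : ℚ) ^ 2 := by exact_mod_cast h
  field_simp
  linear_combination h'

theorem G_inv {C S Q : ℤ} (hQ : (Q : ℚ) ≠ 0) (h : C ^ 2 + S ^ 2 = Q ^ 2) (i : Fin 2) :
    G C S Q (i, true) * G C S Q (i, false) = 1 ∧ G C S Q (i, false) * G C S Q (i, true) = 1 := by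
  have e := cs hQ h
  have e' : (S / Q : ℚ) * (S / Q) + (C / Q) * (C / Q) = 1 := by rw [add_comm]; exact e
  fin_cases i <;> constructor <;> ext r c <;> fin_cases r <;> fin_cases c <;>
    simp [G, Matrix.mul_apply, Fin.sum_univ_three] <;> first | exact e | exact e' | ring

theorem G_P {C S Q : ℤ} (hQ : (Q : ℚ) ≠ 0) (x : Fin 2 × Bool) :
    (Q : ℚ) • G C S Q x = (Int.castRingHom ℚ).mapMatrix (P C S Q x) := by
  have c1 : (Q : ℚ) * (C / Q) = C := by field_simp
  have c2 : (Q : ℚ) * (S / Q) = S := by field_simp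
  obtain ⟨i, b⟩ := x
  fin_cases i <;> cases b <;> ext r c <;> fin_cases r <;> fin_cases c <;> simp [G, P, c1, c2]

/-- translation parts of the generators -/
def tau : Fin 2 → Fin 3 → ℚ
  | 0 => ez
  | 1 => ex

theorem G_tau (C S Q : ℤ) (i : Fin 2) (b : Bool) : G C S Q (i, b) *ᵥ tau i = tau i := by
  fin_cases i <;> cases b <;> ext r <;> fin_cases r <;>
    simp [G, tau, ez, ex, Matrix.mulVec, dotProduct, Fin.sum_univ_three]

/-- the two screw motions -/
def gen (C S Q : ℤ) (hQ : (Q : ℚ) ≠ 0) (h : C ^ 2 + S ^ 2 = Q ^ 2) (i : Fin 2) : Equiv.Perm (Fin 3 → ℚ) where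
  toFun x := G C S Q (i, true) *ᵥ x + tau i
  invFun x := G C S Q (i, false) *ᵥ (x - tau i)
  left_inv x := by
    simp only [add_sub_cancel_right, mulVec_mulVec, (G_inv hQ h i).2, one_mulVec]
  right_inv x := by
    simp only [mulVec_mulVec, (G_inv hQ h i).1, one_mulVec, sub_add_cancel]

theorem good_gen {C S Q u : ℤ} {E : ℕ} (hQ : (Q : ℚ) ≠ 0) (h : C ^ 2 + S ^ 2 = Q ^ 2) (hS : S = 3 ^ E * u)
    (hC3 : C % 3 = 1) (hQ3 : Q % 3 = 1) (i : Fin 2) (b : Bool) :
    Good E (S / Q) (G C S Q (i, b)) ((if b then (1 : ℚ) else -1) • tau i)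
      (if i = 0 then (if b then 1 else -1) else 0) (if i = 1 then (if b then 1 else -1) else 0) := by
  have e := cs hQ h
  have hc : D (2 * E) ((C / Q : ℚ) - 1) := by
    refine ⟨-u ^ 2, Q * (C + Q), ?_, ?_⟩
    · apply nd_mul
      · omega
      · omega
    · have h' : (C : ℚ) ^ 2 + (S : ℚ) ^ 2 = (Q : ℚ) ^ 2 := by exact_mod_cast h
      have hS' : (S : ℚ) = 3 ^ E * u := by exact_mod_cast hS
      have e1 : ((C / Q : ℚ) - 1) * ((Q * (C + Q) : ℤ) : ℚ) = (C : ℚ) ^ 2 - (Q : ℚ) ^ 2 := by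
        push_cast; field_simp; ring
      rw [e1]
      push_cast
      have : (S : ℚ) ^ 2 = 3 ^ (2 * E) * (u : ℚ) ^ 2 := by rw [hS']; ring
      linear_combination h' - this
  refine ⟨?_, ?_, ?_, ?_⟩
  · intro r
    fin_cases i <;> cases b <;> fin_cases r <;> simp [tau, ez, ex] <;> exact D.zero _
  · intro r c
    fin_cases i <;> cases b <;> fin_cases r <;> fin_cases c <;> simp [G, Kz, Kx] <;>
      first | exact D.zero _ | exact hc
  · rw [adjugate_fin_three]
    fin_cases i <;> cases b <;> ext r c <;> fin_cases r <;> fin_cases c <;> simp [G] <;>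
      linear_combination e
  · fin_cases i <;> cases b <;> ext r c <;> fin_cases r <;> fin_cases c <;>
      simp [G, Matrix.mul_apply, Fin.sum_univ_three] <;> first | linear_combination e | ring

theorem good2_gen {C S Q u : ℤ} {E : ℕ} (hQ : (Q : ℚ) ≠ 0) (h : C ^ 2 + S ^ 2 = Q ^ 2) (hS : S = 3 ^ E * u)
    (hC3 : C % 3 = 1) (hQ3 : Q % 3 = 1) (i : Fin 2) (b : Bool) :
    Good2 E (S / Q) (G C S Q (i, b)) ((if b then (1 : ℚ) else -1) • tau i)
      (if i = 0 then (if b then 1 else -1) else 0) (if i = 1 then (if b then 1 else -1) else 0) 0 0 := by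
  refine ⟨good_gen hQ h hS hC3 hQ3 i b, ?_, ?_, ?_⟩
  · intro r
    fin_cases i <;> cases b <;> fin_cases r <;> simp [tau, ez, ex, ey] <;> exact D.zero _
  · refine ⟨if i = 0 then !![(C / Q : ℚ) - 1, 0, 0; 0, (C / Q : ℚ) - 1, 0; 0, 0, 0]
      else !![0, 0, 0; 0, (C / Q : ℚ) - 1, 0; 0, 0, (C / Q : ℚ) - 1], ?_, ?_⟩
    · fin_cases i <;> ext r c <;> fin_cases r <;> fin_cases c <;> simp
    · intro r c
      fin_cases i <;> cases b <;> fin_cases r <;> fin_cases c <;> simp [G, Kz, Kx] <;> exact D.zero _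
  · fin_cases i <;> cases b <;> simp

theorem result (n : ℕ) : ∃ φ : FreeGroup (Fin 2) →* Equiv.Perm (Fin 3 → ℚ),
    Function.Injective φ ∧ (∀ w, IsIsom (φ w)) ∧
    ∀ w, (∃ x, φ w x = x) → (3 : ℤ) ^ n ∣ expSum 0 w ∧ (3 : ℤ) ^ n ∣ expSum 1 w ∧
      (expSum 0 w = 0 → expSum 1 w = 0 → (3 : ℤ) ^ n ∣ area w) := by
  obtain ⟨K, C, S, u, hK, h1, h2, h3, h4, h5, h6, h7⟩ := nums (2 * n)
  set Q : ℤ := 5 ^ K with hQdef
  have hQ0 : Q ≠ 0 := by rw [hQdef]; positivity
  have hQ : (Q : ℚ) ≠ 0 := by exact_mod_cast hQ0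
  have hQ5 : Q % 5 = 0 := by rw [hQdef]; exact Int.emod_eq_zero_of_dvd (dvd_pow_self _ hK.ne')
  let U : Fin 2 → (Mat)ˣ := fun i => ⟨G C S Q (i, true), G C S Q (i, false), (G_inv hQ h1 i).1, (G_inv hQ h1 i).2⟩
  let lam : FreeGroup (Fin 2) →* (Mat)ˣ := FreeGroup.lift U
  let φ : FreeGroup (Fin 2) →* Equiv.Perm (Fin 3 → ℚ) := FreeGroup.lift (gen C S Q hQ h1)
  have hs : D (2 * n + 1) (S / Q : ℚ) := by
    refine ⟨u, Q, by omega, ?_⟩
    have hS' : (S : ℚ) = 3 ^ (2 * n + 1) * u := by exact_mod_cast h4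
    rw [div_mul_cancel₀ _ hQ, hS']
  have good : ∀ w, ∃ t, (∀ x, φ w x = (lam w).val *ᵥ x + t) ∧
      Good2 (2 * n + 1) (S / Q) (lam w).val t (expSum 0 w) (expSum 1 w) (area w)
        (expSum 0 w * expSum 1 w - area w) := by
    intro w
    induction w using FreeGroup.induction_on with
    | C1 =>
      refine ⟨0, fun x => by simp, ?_⟩
      refine ⟨⟨?_, ?_, ?_, ?_⟩, ?_, ⟨0, ?_, ?_⟩, ?_⟩
      · intro r; simp [expSum_one]; exact D.zero _
      · intro r c; simp [expSum_one]; exact D.zero _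
      · simp
      · simp
      · intro r; simp [expSum_one, area]; exact D.zero _
      · simp
      · intro r c; simp [expSum_one, area]; exact D.zero _
      · ring
    | of i =>
      refine ⟨tau i, fun x => by simp [φ, lam, U, gen], ?_⟩
      have := good2_gen (E := 2 * n + 1) hQ h1 h4 h6 h7 i true
      have ha : area (FreeGroup.of i) = 0 := by fin_cases i <;> simp [area, heis]
      have hb : expSum 0 (FreeGroup.of i) * expSum 1 (FreeGroup.of i) = 0 := by
        rw [expSum_of, expSum_of]; fin_cases i <;> simp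
      rw [hb, ha, sub_zero]
      simp only [if_true, one_smul] at this
      simpa [lam, U, expSum_of] using this
    | inv_of i _ =>
      refine ⟨-tau i, fun x => ?_, ?_⟩
      · have e1 : φ (FreeGroup.of i)⁻¹ x = G C S Q (i, false) *ᵥ (x - tau i) := by
          simp only [φ, map_inv, FreeGroup.lift_apply_of]
          rfl
        have e2 : (lam (FreeGroup.of i)⁻¹).val = G C S Q (i, false) := by
          simp only [lam, map_inv, FreeGroup.lift_apply_of]
          rfl
        rw [e1, e2, mulVec_sub, G_tau, sub_eq_add_neg]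
      · have := good2_gen (E := 2 * n + 1) hQ h1 h4 h6 h7 i false
        have ha : area (FreeGroup.of i)⁻¹ = 0 := by fin_cases i <;> simp [area, heis]
        have hb : expSum 0 (FreeGroup.of i)⁻¹ * expSum 1 (FreeGroup.of i)⁻¹ = 0 := by
          rw [expSum_inv, expSum_inv, expSum_of, expSum_of]; fin_cases i <;> simp
        rw [hb, ha, sub_zero]
        have e2 : (lam (FreeGroup.of i)⁻¹).val = G C S Q (i, false) := by
          simp only [lam, map_inv, FreeGroup.lift_apply_of]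
          rfl
        rw [e2, expSum_inv, expSum_inv, expSum_of, expSum_of]
        fin_cases i <;> simpa using this
    | mul v w hv hw =>
      obtain ⟨t, ht, g⟩ := hv
      obtain ⟨t', ht', g'⟩ := hw
      refine ⟨(lam v).val *ᵥ t' + t, fun x => ?_, ?_⟩
      · rw [map_mul, Equiv.Perm.mul_apply, ht', ht, map_mul, Units.val_mul, mulVec_add, mulVec_mulVec, add_assoc]
      · have hq : expSum 0 (v * w) * expSum 1 (v * w) - area (v * w) =
            (expSum 0 v * expSum 1 v - area v) + (expSum 0 w * expSum 1 w - area w) + expSum 1 v * expSum 0 w := by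
          rw [area_mul, expSum_mul, expSum_mul]; ring
        rw [hq, map_mul, Units.val_mul, expSum_mul, expSum_mul, area_mul]
        exact g.mul hs g'
  refine ⟨φ, ?_, ?_, ?_⟩
  · rw [injective_iff_map_eq_one]
    intro w hw
    by_contra hne
    obtain ⟨t, ht, g⟩ := good w
    have hL : (lam w).val = 1 := by
      have e0 := ht 0
      rw [hw, mulVec_zero, zero_add] at e0
      have e : ∀ x, (lam w).val *ᵥ x = (1 : Mat) *ᵥ x := by
        intro x
        have := ht x
        rw [hw, ← e0] at this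
        simpa using this.symm
      exact Matrix.ext_of_mulVec_single fun i => e _
    have hw' : FreeGroup.mk (FreeGroup.toWord w) = w := FreeGroup.mk_toWord
    have hprod : (lam w).val = ((FreeGroup.toWord w).map (G C S Q)).prod := by
      conv_lhs => rw [← hw']
      simp only [lam, FreeGroup.lift_mk]
      rw [← Units.coeHom_apply, map_list_prod, List.map_map]
      congr 1
      apply List.map_congr_left
      rintro ⟨i, b⟩ _
      cases b <;> rfl
    refine word_ne h2 h3 hQ5 (G C S Q) (G_P hQ) (FreeGroup.toWord w) FreeGroup.isReduced_toWord ?_ ?_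
    · intro h; exact hne (FreeGroup.toWord_eq_nil_iff.1 h)
    · rw [← hprod, hL]
  · intro w x y
    obtain ⟨t, ht, g⟩ := good w
    have e : ∀ z : Fin 3 → ℚ, ∑ i, z i ^ 2 = z ⬝ᵥ z := by
      intro z; simp [dotProduct, pow_two]
    have e1 : φ w x - φ w y = (lam w).val *ᵥ (x - y) := by
      rw [ht, ht, mulVec_sub]; abel
    have e2 : ∑ i, (φ w x i - φ w y i) ^ 2 = (φ w x - φ w y) ⬝ᵥ (φ w x - φ w y) := by
      rw [← e]; rfl
    have e3 : ∑ i, (x i - y i) ^ 2 = (x - y) ⬝ᵥ (x - y) := by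
      rw [← e]; rfl
    rw [e2, e3, e1, dotProduct_mulVec, vecMul_mulVec, g.g.orth, vecMul_one]
  · rintro w ⟨x, hx⟩
    obtain ⟨t, ht, g⟩ := good w
    rw [ht] at hx
    have f := g.g.fix hs x hx
    have hS' : (S : ℚ) = 3 ^ (2 * n + 1) * u := by exact_mod_cast h4
    rw [hS'] at f
    obtain ⟨f1, f2⟩ := final h5 hQ0 f
    refine ⟨f1, f2, fun z0 z1 => ?_⟩
    rw [z0, z1] at g
    have f3 := g.fix hs x hx
    rw [hS'] at f3
    exact final2 h5 hQ0 f3

end Pool.Agent.Results.MP_a80717_al.ExponentSums
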